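import Pool.Agent.Helper68_BAN.Stmt2

/-!
# Squad BAN, module CENV (helper20): the centroid of a convex body
-/

namespace Pool.Agent.BAN.H20

open MeasureTheory Set
open scoped ENNReal NNReal Pointwise

set_option linter.unusedSectionVars false

section Cen

variable {V : Type} [NormedAddCommGroup V] [InnerProductSpace ℝ V] [FiniteDimensional ℝ V]
  [MeasurableSpace V] [BorelSpace V] (μ : Measure V) [μ.IsAddHaarMeasure]

/-- The centroid. -/
noncomputable def cen (K : Set V) : V := (μ.real K)⁻¹ • ∫ x in K, x ∂μ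

lemma real_pos {K : Set V} (hc : IsCompact K) (hi : (interior K).Nonempty) : 0 < μ.real K := by
  have h1 : 0 < μ (interior K) := isOpen_interior.measure_pos μ hi
  have h2 : μ K < ∞ := hc.measure_lt_top
  exact ENNReal.toReal_pos (h1.trans_le (measure_mono interior_subset)).ne' h2.ne

lemma integrable_id {K : Set V} (hc : IsCompact K) : IntegrableOn (fun x : V => x) K μ :=
  continuous_id.continuousOn.integrableOn_compact hc

lemma int_id {K : Set V} (h : 0 < μ.real K) :
    ∫ x in K, x ∂μ = μ.real K • cen μ K := by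
  unfold cen
  rw [smul_smul, mul_inv_cancel₀ h.ne', one_smul]

lemma int_sub {K : Set V} (hc : IsCompact K) (c : V) :
    ∫ x in K, (x - c) ∂μ = (∫ x in K, x ∂μ) - μ.real K • c := by
  have hK : μ K ≠ ∞ := hc.measure_lt_top.ne
  rw [integral_sub (integrable_id μ hc) (integrableOn_const hK), setIntegral_const]

lemma cen_mem {K : Set V} (hv : Convex ℝ K) (hc : IsCompact K) (hi : (interior K).Nonempty) :
    cen μ K ∈ interior K := by
  by_contra h
  obtain ⟨f, hf⟩ := geometric_hahn_banach_open_point hv.interior isOpen_interior h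
  have hpos := real_pos μ hc hi
  have hsub : K ⊆ {x | f x ≤ f (cen μ K)} := by
    have h1 : closure (interior K) ⊆ {x | f x ≤ f (cen μ K)} :=
      closure_minimal (fun x hx => (hf x hx).le) (isClosed_le f.continuous continuous_const)
    have h2 : closure (interior K) = closure K :=
      hv.closure_interior_eq_closure_of_nonempty_interior hi
    exact (subset_closure.trans h2.symm.subset).trans h1
  have hint : IntegrableOn (fun x => f (cen μ K) - f x) K μ :=
    (continuous_const.sub f.continuous).continuousOn.integrableOn_compact hc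
  have h0 : ∫ x in K, (f (cen μ K) - f x) ∂μ = 0 := by
    have h1 : ∫ x in K, f (x - cen μ K) ∂μ = f (∫ x in K, (x - cen μ K) ∂μ) :=
      f.integral_comp_comm ((continuous_id.sub continuous_const).continuousOn.integrableOn_compact
        hc)
    rw [int_sub μ hc, int_id μ hpos, sub_self, map_zero] at h1
    rw [← neg_eq_zero, ← integral_neg, ← h1]
    apply integral_congr_ae
    filter_upwards with x
    rw [map_sub]; ring
  have hp : 0 < ∫ x in K, (f (cen μ K) - f x) ∂μ := by
    rw [setIntegral_pos_iff_support_of_nonneg_ae _ hint]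
    · refine lt_of_lt_of_le (isOpen_interior.measure_pos μ hi) (measure_mono ?_)
      intro x hx
      refine ⟨?_, interior_subset hx⟩
      have := hf x hx
      simp only [Function.mem_support]
      linarith
    · filter_upwards [ae_restrict_mem hc.measurableSet] with x hx
      have : f x ≤ f (cen μ K) := hsub hx
      simp only [Pi.zero_apply]
      linarith
  linarith

lemma aff_apply (M : V →ᵃ[ℝ] V) (x : V) : M x = M.linear x + M 0 := by
  have := M.map_vadd 0 x
  simpa using this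

lemma meas_aff (M : V →ᵃ[ℝ] V) (K : Set V) :
    μ (M '' K) = ENNReal.ofReal |LinearMap.det M.linear| * μ K := by
  have h : M '' K = (M 0) +ᵥ (M.linear '' K) := by
    ext y
    simp only [mem_image, Set.mem_vadd_set, exists_exists_and_eq_and, vadd_eq_add]
    constructor
    · rintro ⟨x, hx, rfl⟩
      exact ⟨x, hx, by rw [aff_apply M x, add_comm]⟩
    · rintro ⟨x, hx, rfl⟩
      exact ⟨x, hx, by rw [aff_apply M x, add_comm]⟩
  rw [h, measure_vadd, Measure.addHaar_image_linearMap]

lemma int_aff (M : V →ᵃ[ℝ] V) {K : Set V} (hc : IsCompact K) (hK : 0 < μ.real K)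
    (hd : LinearMap.det M.linear ≠ 0) :
    ∫ x in M '' K, x ∂μ = (|LinearMap.det M.linear| * μ.real K) • M (cen μ K) := by
  set L : V →L[ℝ] V := LinearMap.toContinuousLinearMap M.linear with hL
  have hLd : L.det = LinearMap.det M.linear := by
    rw [hL]; simp
  have hder : ∀ x ∈ K, HasFDerivWithinAt (fun x => M x) L K x := by
    intro x _
    have h1 : (fun x => M x) = fun x => L x + M 0 := by
      funext x; rw [aff_apply M x]; rfl
    rw [h1]
    exact (L.hasFDerivAt.add_const (M 0)).hasFDerivWithinAt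
  have hinj : InjOn (fun x => M x) K := by
    intro x _ y _ hxy
    have h1 : M x = M y := hxy
    rw [aff_apply M x, aff_apply M y] at h1
    have h2 : M.linear x = M.linear y := add_right_cancel h1
    have h3 : IsUnit (LinearMap.det M.linear) := isUnit_iff_ne_zero.mpr hd
    have h4 : IsUnit M.linear := (LinearMap.isUnit_iff_isUnit_det M.linear).mpr h3
    exact ((Module.End.isUnit_iff _).mp h4).injective h2
  have h1 := integral_image_eq_integral_abs_det_fderiv_smul μ hc.measurableSet hder hinj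
    (fun x => x)
  rw [h1]
  simp only [hLd]
  rw [integral_smul, mul_smul]
  congr 1
  have h2 : ∀ x, M x = L x + M 0 := fun x => by rw [aff_apply M x]; rfl
  have h3 : (∫ x in K, M x ∂μ) = ∫ x in K, (L x + M 0) ∂μ :=
    integral_congr_ae (Filter.Eventually.of_forall h2)
  rw [h3, h2 (cen μ K)]
  have hKt : μ K ≠ ∞ := hc.measure_lt_top.ne
  have hLi : IntegrableOn (fun x => L x) K μ :=
    L.continuous.continuousOn.integrableOn_compact hc
  rw [integral_add hLi (integrableOn_const hKt), setIntegral_const,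
    L.integral_comp_comm (integrable_id μ hc), int_id μ hK, map_smul, smul_add]

/-- `(1 + ε) ^ n` is bounded linearly. -/
lemma pow_bound (n : ℕ) (ε : ℝ) (h0 : 0 ≤ ε) (h1 : ε ≤ 1) :
    (1 + ε) ^ n ≤ 1 + (2 ^ n - 1) * ε := by
  induction n with
  | zero => simp
  | succ n ih =>
    have h2 : (1 : ℝ) ≤ 2 ^ n := one_le_pow₀ (by norm_num)
    have h3 : (1 + ε) ^ (n + 1) ≤ (1 + (2 ^ n - 1) * ε) * (1 + ε) := by
      rw [pow_succ]
      exact mul_le_mul_of_nonneg_right ih (by linarith)
    refine h3.trans ?_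
    have h4 : ε * ε ≤ ε := by nlinarith
    have h5 : (2 ^ n - 1) * (ε * ε) ≤ (2 ^ n - 1) * ε :=
      mul_le_mul_of_nonneg_left h4 (by linarith)
    rw [pow_succ]
    nlinarith

lemma hom_apply (p : V) (r : ℝ) (x : V) :
    AffineMap.homothety p r x = p + r • (x - p) := by
  rw [AffineMap.homothety_apply, vsub_eq_sub, vadd_eq_add, add_comm]

lemma hom_sub {K : Set V} (hv : Convex ℝ K) {p : V} (hp : p ∈ K) {ε : ℝ} (h0 : 0 ≤ ε)
    (h1 : ε ≤ 1) : AffineMap.homothety p (1 - ε) '' K ⊆ K := by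
  rintro _ ⟨x, hx, rfl⟩
  rw [hom_apply]
  have : p + (1 - ε) • (x - p) = ε • p + (1 - ε) • x := by
    rw [smul_sub, sub_smul, sub_smul, one_smul, one_smul]; abel
  rw [this]
  exact hv hp hx h0 (by linarith) (by ring)

lemma sub_hom {K : Set V} (hv : Convex ℝ K) {p : V} (hp : p ∈ K) {ε : ℝ} (h0 : 0 ≤ ε) :
    K ⊆ AffineMap.homothety p (1 + ε) '' K := by
  intro x hx
  have hε : (0 : ℝ) < 1 + ε := by linarith
  refine ⟨(ε / (1 + ε)) • p + (1 / (1 + ε)) • x, ?_, ?_⟩
  · refine hv hp hx (by positivity) (by positivity) ?_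
    field_simp
    ring
  · rw [hom_apply]
    have h2 : (ε / (1 + ε)) • p + (1 / (1 + ε)) • x - p = (1 / (1 + ε)) • (x - p) := by
      have h3 : ε / (1 + ε) = 1 - 1 / (1 + ε) := by field_simp; ring
      rw [h3, sub_smul, one_smul, smul_sub]; abel
    rw [h2, smul_smul, mul_one_div_cancel hε.ne', one_smul]
    abel

/-- Difference of the integrals over two sets between `A` and `B`. -/
lemma diff_bound {A B K L : Set V} (hA : MeasurableSet A) (hB : MeasurableSet B)
    (hBf : μ B ≠ ∞) (hK : MeasurableSet K) (hL : MeasurableSet L) (hAK : A ⊆ K) (hKB : K ⊆ B)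
    (hAL : A ⊆ L) (hLB : L ⊆ B) (f : V → V) (R : ℝ) (hf : IntegrableOn f B μ)
    (hR : ∀ x ∈ B, ‖f x‖ ≤ R) (hR0 : 0 ≤ R) :
    ‖(∫ x in L, f x ∂μ) - ∫ x in K, f x ∂μ‖ ≤ 2 * (R * (μ.real B - μ.real A)) := by
  have key : ∀ S : Set V, MeasurableSet S → A ⊆ S → S ⊆ B →
      ‖(∫ x in S, f x ∂μ) - ∫ x in A, f x ∂μ‖ ≤ R * (μ.real B - μ.real A) := by
    intro S hS hAS hSB
    rw [← setIntegral_sdiff hA (hf.mono_set hSB) hAS]
    have h1 : μ (S \ A) < ∞ := lt_of_le_of_lt (measure_mono (sdiff_subset.trans hSB))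
      (lt_top_iff_ne_top.mpr hBf)
    refine (norm_setIntegral_le_of_norm_le_const h1 (fun x hx => hR x (hSB hx.1))).trans ?_
    apply mul_le_mul_of_nonneg_left _ hR0
    have hAf : μ A ≠ ∞ := ((measure_mono (hAS.trans hSB)).trans_lt
      (lt_top_iff_ne_top.mpr hBf)).ne
    have hSf : μ S ≠ ∞ := ((measure_mono hSB).trans_lt (lt_top_iff_ne_top.mpr hBf)).ne
    have h2 : μ.real (S \ A) = μ.real S - μ.real A := measureReal_sdiff hAS hA hSf
    rw [h2]
    have h3 : μ.real S ≤ μ.real B := measureReal_mono hSB hBf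
    linarith
  have h1 := key L hL hAL hLB
  have h2 := key K hK hAK hKB
  have h3 : (∫ x in L, f x ∂μ) - ∫ x in K, f x ∂μ =
      ((∫ x in L, f x ∂μ) - ∫ x in A, f x ∂μ) - ((∫ x in K, f x ∂μ) - ∫ x in A, f x ∂μ) := by
    abel
  rw [h3]
  refine (norm_sub_le _ _).trans ?_
  linarith

end Cen

theorem cenv : CENVStmt := by
  intro V _ _ _ K hv hc hi
  letI : MeasurableSpace V := borel V
  haveI : BorelSpace V := ⟨rfl⟩
  set μ : Measure V := volume with hμ
  obtain ⟨R, hR⟩ := hc.isBounded.exists_norm_le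
  have hK := real_pos μ hc hi
  set c0 := cen μ K with hc0
  have hci : c0 ∈ interior K := cen_mem μ hv hc hi
  have hR0 : 0 ≤ R := (norm_nonneg _).trans (hR c0 (interior_subset hci))
  set n := Module.finrank ℝ V with hn
  refine ⟨c0, 2 ^ n * (2 * (5 * R) * (2 ^ n - 1 + n)), hci, ?_, ?_⟩
  · have h2 : (1 : ℝ) ≤ 2 ^ n := one_le_pow₀ (by norm_num)
    have h3 : (0 : ℝ) ≤ n := by positivity
    have h4 : (0 : ℝ) ≤ 2 ^ n - 1 + n := by linarith
    positivity
  intro M p ε hp h0 h1 hsub1 hsub2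
  set A := AffineMap.homothety p (1 - ε) '' K with hA
  set B := AffineMap.homothety p (1 + ε) '' K with hB
  have hcont : ∀ r : ℝ, Continuous (fun x : V => AffineMap.homothety p r x) := by
    intro r
    exact AffineMap.homothety_continuous p r
  have hAc : IsCompact A := hc.image (hcont _)
  have hBc : IsCompact B := hc.image (hcont _)
  have hMc : IsCompact (M '' K) := hc.image M.continuous_of_finiteDimensional
  have hAm : μ.real A = (1 - ε) ^ n * μ.real K := by
    rw [hA, Measure.real, Measure.addHaar_image_homothety, ENNReal.toReal_mul,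
      ENNReal.toReal_ofReal (abs_nonneg _), abs_of_nonneg (pow_nonneg (by linarith) _)]
    rfl
  have hBm : μ.real B = (1 + ε) ^ n * μ.real K := by
    rw [hB, Measure.real, Measure.addHaar_image_homothety, ENNReal.toReal_mul,
      ENNReal.toReal_ofReal (abs_nonneg _), abs_of_nonneg (pow_nonneg (by linarith) _)]
    rfl
  have hMm : μ.real (M '' K) = |LinearMap.det M.linear| * μ.real K := by
    rw [Measure.real, meas_aff, ENNReal.toReal_mul, ENNReal.toReal_ofReal (abs_nonneg _)]
    rfl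
  have hpow : (1 / 2 : ℝ) ^ n ≤ (1 - ε) ^ n :=
    pow_le_pow_left₀ (by norm_num) (by linarith) n
  have hAM : μ.real A ≤ μ.real (M '' K) := measureReal_mono hsub1 hMc.measure_lt_top.ne
  have hMlow : (1 / 2 : ℝ) ^ n * μ.real K ≤ μ.real (M '' K) := by
    refine le_trans ?_ hAM
    rw [hAm]
    exact mul_le_mul_of_nonneg_right hpow hK.le
  have hMpos : 0 < μ.real (M '' K) := lt_of_lt_of_le (by positivity) hMlow
  have hd : LinearMap.det M.linear ≠ 0 := by
    intro h
    rw [hMm, h, abs_zero, zero_mul] at hMpos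
    exact lt_irrefl _ hMpos
  have hAK : A ⊆ K := hom_sub hv hp h0 (by linarith)
  have hKB : K ⊆ B := sub_hom hv hp h0
  have hbd : ∀ x ∈ B, ‖x - c0‖ ≤ 5 * R := by
    rintro _ ⟨y, hy, rfl⟩
    have e1 := hR y hy
    have e2 := hR p hp
    have e3 := hR c0 (interior_subset hci)
    change ‖AffineMap.homothety p (1 + ε) y - c0‖ ≤ 5 * R
    rw [hom_apply]
    calc ‖p + (1 + ε) • (y - p) - c0‖ ≤ ‖p + (1 + ε) • (y - p)‖ + ‖c0‖ := norm_sub_le _ _
      _ ≤ ‖p‖ + ‖(1 + ε) • (y - p)‖ + ‖c0‖ := by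
        have := norm_add_le p ((1 + ε) • (y - p)); linarith
      _ ≤ R + (3 / 2) * (R + R) + R := by
        rw [norm_smul, Real.norm_eq_abs, abs_of_nonneg (by linarith)]
        have e4 : ‖y - p‖ ≤ R + R := (norm_sub_le _ _).trans (by linarith)
        have e5 : (1 + ε) * ‖y - p‖ ≤ (3 / 2) * (R + R) :=
          mul_le_mul (by linarith) e4 (norm_nonneg _) (by norm_num)
        linarith
      _ = 5 * R := by ring
  have hfint : IntegrableOn (fun x => x - c0) B μ :=
    (continuous_id.sub continuous_const).continuousOn.integrableOn_compact hBc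
  have hmain := diff_bound μ hAc.measurableSet hBc.measurableSet hBc.measure_lt_top.ne
    hc.measurableSet hMc.measurableSet hAK hKB hsub1 hsub2 (fun x => x - c0) (5 * R) hfint hbd
    (by positivity)
  rw [int_sub μ hMc, int_sub μ hc, int_aff μ M hc hK hd, int_id μ hK, ← hc0, sub_self, sub_zero,
    ← hMm, ← smul_sub, norm_smul, Real.norm_eq_abs, abs_of_pos hMpos, hAm, hBm] at hmain
  have hb1 := pow_bound n ε h0 (by linarith)
  have hb2 : 1 - (n : ℝ) * ε ≤ (1 - ε) ^ n := by
    have := one_add_mul_le_pow (a := -ε) (by linarith) n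
    have h5 : (1 + -ε) ^ n = (1 - ε) ^ n := by rw [← sub_eq_add_neg]
    rw [h5] at this
    linarith
  have hb3 : (1 + ε) ^ n - (1 - ε) ^ n ≤ (2 ^ n - 1 + n) * ε := by linarith
  have h6 : 2 * (5 * R * ((1 + ε) ^ n * μ.real K - (1 - ε) ^ n * μ.real K)) ≤
      2 * (5 * R) * (2 ^ n - 1 + n) * ε * μ.real K := by
    have : 2 * (5 * R * ((1 + ε) ^ n * μ.real K - (1 - ε) ^ n * μ.real K)) =
      (2 * (5 * R) * μ.real K) * ((1 + ε) ^ n - (1 - ε) ^ n) := by ring
    rw [this]
    calc (2 * (5 * R) * μ.real K) * ((1 + ε) ^ n - (1 - ε) ^ n)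
        ≤ (2 * (5 * R) * μ.real K) * ((2 ^ n - 1 + n) * ε) :=
          mul_le_mul_of_nonneg_left hb3 (by positivity)
      _ = _ := by ring
  have h7 : (1 / 2 : ℝ) ^ n * μ.real K * ‖M c0 - c0‖ ≤
      2 * (5 * R) * (2 ^ n - 1 + n) * ε * μ.real K :=
    (mul_le_mul_of_nonneg_right hMlow (norm_nonneg _)).trans (hmain.trans h6)
  have h8 : (1 / 2 : ℝ) ^ n * ‖M c0 - c0‖ ≤ 2 * (5 * R) * (2 ^ n - 1 + n) * ε := by
    have h9 : ((1 / 2 : ℝ) ^ n * ‖M c0 - c0‖) * μ.real K ≤
      (2 * (5 * R) * (2 ^ n - 1 + n) * ε) * μ.real K := by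
      calc _ = (1 / 2 : ℝ) ^ n * μ.real K * ‖M c0 - c0‖ := by ring
        _ ≤ _ := h7
    exact le_of_mul_le_mul_right h9 hK
  have h10 : (2 : ℝ) ^ n * (1 / 2 : ℝ) ^ n = 1 := by
    rw [← mul_pow]; norm_num
  calc ‖M c0 - c0‖ = 2 ^ n * ((1 / 2 : ℝ) ^ n * ‖M c0 - c0‖) := by
        rw [← mul_assoc, h10, one_mul]
    _ ≤ 2 ^ n * (2 * (5 * R) * (2 ^ n - 1 + n) * ε) :=
        mul_le_mul_of_nonneg_left h8 (by positivity)
    _ = _ := by ring

end Pool.Agent.BAN.H20
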