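import Pool.Agent.Helper10_BAN.Stmt

/-!
# Squad BAN, modules MAPA and MAPB (helper20)
-/

namespace Pool.Agent.BAN.H20

open Set
open scoped NNReal

variable {E : Type} [NormedAddCommGroup E] [InnerProductSpace ℝ E]

lemma inner_xp (e x : E) (he : ‖e‖ = 1) : inner ℝ e (xp e x) = 0 := by
  unfold xp x0
  rw [inner_sub_right, inner_smul_right, real_inner_self_eq_norm_sq, he]
  ring

lemma x0_sub (e x z : E) : x0 e (x - z) = x0 e x - x0 e z := by
  unfold x0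
  rw [inner_sub_right]

lemma xp_sub (e x z : E) : xp e (x - z) = xp e x - xp e z := by
  unfold xp
  rw [x0_sub, sub_smul]
  abel

lemma norm_sq_decomp (e x : E) (he : ‖e‖ = 1) : ‖x‖ ^ 2 = (x0 e x) ^ 2 + ‖xp e x‖ ^ 2 := by
  have h : x = x0 e x • e + xp e x := by
    unfold xp
    abel
  have h2 : ‖x‖ ^ 2 = ‖x0 e x • e + xp e x‖ ^ 2 := by rw [← h]
  rw [h2, norm_add_sq_real, inner_smul_left, inner_xp e x he, norm_smul, he, mul_one,
    Real.norm_eq_abs, sq_abs]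
  simp

lemma abs_x0_le (e x : E) (he : ‖e‖ = 1) : |x0 e x| ≤ ‖x‖ := by
  apply abs_le_of_sq_le_sq _ (norm_nonneg _)
  rw [norm_sq_decomp e x he]
  nlinarith [sq_nonneg ‖xp e x‖]

lemma norm_xp_le (e x : E) (he : ‖e‖ = 1) : ‖xp e x‖ ≤ ‖x‖ := by
  apply le_of_sq_le_sq _ (norm_nonneg _)
  rw [norm_sq_decomp e x he]
  nlinarith [sq_nonneg (x0 e x)]

lemma ww_nonneg (e x : E) : 0 ≤ ww e x := by
  unfold ww
  exact le_max_of_le_right (by positivity)

lemma xp_le_ww (e x : E) : ‖xp e x‖ ≤ 2 * ww e x := by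
  have : ‖xp e x‖ / 2 ≤ ww e x := le_max_right _ _
  linarith

lemma ww_lip (e x z : E) (he : ‖e‖ = 1) : |ww e x - ww e z| ≤ 2 * ‖x - z‖ := by
  have h0 : |x0 e x - x0 e z| ≤ ‖x - z‖ := by
    rw [← x0_sub]; exact abs_x0_le e _ he
  have h1 : |‖xp e x‖ - ‖xp e z‖| ≤ ‖x - z‖ := by
    refine (abs_norm_sub_norm_le _ _).trans ?_
    rw [← xp_sub]; exact norm_xp_le e _ he
  have hn := norm_nonneg (x - z)
  rw [abs_le] at h0 h1
  unfold ww
  refine (abs_max_sub_max_le_max _ _ _ _).trans ?_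
  apply max_le
  · rw [abs_le]; constructor <;> linarith
  · rw [abs_le]; constructor <;> linarith

lemma YY_mem (e x : E) (he : ‖e‖ = 1) : YY e x ∈ DD e := by
  constructor
  · unfold YY
    rw [norm_smul, norm_inv, Real.norm_eq_abs, abs_of_nonneg (ww_nonneg e x)]
    rcases (ww_nonneg e x).eq_or_lt with h | h
    · rw [← h]; simp
    · rw [inv_mul_le_iff₀ h]
      have := xp_le_ww e x
      linarith
  · unfold YY x0
    rw [inner_smul_right, inner_xp e x he, mul_zero]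

lemma YY_lip (e x z : E) (he : ‖e‖ = 1) (hx : 0 < ww e x) (hz : 0 < ww e z) :
    ww e x * ‖YY e x - YY e z‖ ≤ 5 * ‖x - z‖ := by
  have h1 : ww e x • (YY e x - YY e z) =
      (xp e x - xp e z) + ((ww e z - ww e x) * (ww e z)⁻¹) • xp e z := by
    unfold YY
    rw [smul_sub, smul_smul, smul_smul, mul_inv_cancel₀ hx.ne', one_smul, sub_mul,
      mul_inv_cancel₀ hz.ne', sub_smul, one_smul]
    abel
  have h2 : ww e x * ‖YY e x - YY e z‖ = ‖ww e x • (YY e x - YY e z)‖ := by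
    rw [norm_smul, Real.norm_eq_abs, abs_of_pos hx]
  rw [h2, h1]
  have h3 : ‖xp e x - xp e z‖ ≤ ‖x - z‖ := by
    rw [← xp_sub]; exact norm_xp_le e _ he
  have h4 : ‖((ww e z - ww e x) * (ww e z)⁻¹) • xp e z‖ ≤ 4 * ‖x - z‖ := by
    rw [norm_smul, norm_mul, Real.norm_eq_abs, norm_inv, Real.norm_eq_abs, abs_of_pos hz]
    have h5 := ww_lip e z x he
    rw [norm_sub_rev] at h5
    have h6 := xp_le_ww e z
    have h7 : (ww e z)⁻¹ * ‖xp e z‖ ≤ 2 := by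
      rw [inv_mul_le_iff₀ hz]; linarith
    calc |ww e z - ww e x| * (ww e z)⁻¹ * ‖xp e z‖
        = |ww e z - ww e x| * ((ww e z)⁻¹ * ‖xp e z‖) := by ring
      _ ≤ (2 * ‖x - z‖) * 2 := by
        apply mul_le_mul h5 h7 (by positivity) (by positivity)
      _ = 4 * ‖x - z‖ := by ring
  calc _ ≤ ‖xp e x - xp e z‖ + ‖((ww e z - ww e x) * (ww e z)⁻¹) • xp e z‖ := norm_add_le _ _
    _ ≤ _ := by linarith

theorem mapa : MAPAStmt := by
  intro E _ _ e he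
  refine ⟨fun x => YY_mem e x he, fun x => ww_nonneg e x, ⟨2, ?_⟩, ?_⟩
  · apply LipschitzWith.of_dist_le_mul
    intro x z
    rw [Real.dist_eq, dist_eq_norm]
    simpa using ww_lip e x z he
  · intro Z _ _ s C L hC hL
    refine ⟨⟨2 * |C| + 5 * |L|, by positivity⟩, ?_⟩
    apply LipschitzWith.of_dist_le_mul
    intro x z
    rw [dist_eq_norm, dist_eq_norm]
    change _ ≤ (2 * |C| + 5 * |L|) * ‖x - z‖
    have hCx : ‖s (YY e x)‖ ≤ |C| := (hC _ (YY_mem e x he)).trans (le_abs_self C)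
    have hCz : ‖s (YY e z)‖ ≤ |C| := (hC _ (YY_mem e z he)).trans (le_abs_self C)
    have hn := norm_nonneg (x - z)
    have hw := ww_lip e x z he
    have hLn : 0 ≤ 5 * |L| * ‖x - z‖ := by positivity
    rcases (ww_nonneg e x).eq_or_lt with h | h
    · simp only [← h, zero_smul, zero_sub, norm_neg]
      rw [norm_smul, Real.norm_eq_abs]
      rw [← h, zero_sub, abs_neg] at hw
      calc |ww e z| * ‖s (YY e z)‖ ≤ (2 * ‖x - z‖) * |C| :=
            mul_le_mul hw hCz (norm_nonneg _) (by positivity)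
        _ ≤ _ := by linarith
    rcases (ww_nonneg e z).eq_or_lt with h' | h'
    · simp only [← h', zero_smul, sub_zero]
      rw [norm_smul, Real.norm_eq_abs]
      rw [← h', sub_zero] at hw
      calc |ww e x| * ‖s (YY e x)‖ ≤ (2 * ‖x - z‖) * |C| :=
            mul_le_mul hw hCx (norm_nonneg _) (by positivity)
        _ ≤ _ := by linarith
    have h1 : ww e x • s (YY e x) - ww e z • s (YY e z) =
        (ww e x - ww e z) • s (YY e z) + ww e x • (s (YY e x) - s (YY e z)) := by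
      rw [sub_smul, smul_sub]; abel
    rw [h1]
    refine (norm_add_le _ _).trans ?_
    rw [norm_smul, norm_smul, Real.norm_eq_abs, Real.norm_eq_abs, abs_of_pos h]
    have h2 : |ww e x - ww e z| * ‖s (YY e z)‖ ≤ (2 * ‖x - z‖) * |C| :=
      mul_le_mul hw hCz (norm_nonneg _) (by positivity)
    have h3 : ‖s (YY e x) - s (YY e z)‖ ≤ |L| * ‖YY e x - YY e z‖ :=
      (hL _ (YY_mem e x he) _ (YY_mem e z he)).trans
        (mul_le_mul_of_nonneg_right (le_abs_self L) (norm_nonneg _))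
    have h4 : ww e x * ‖s (YY e x) - s (YY e z)‖ ≤ |L| * (5 * ‖x - z‖) := by
      calc ww e x * ‖s (YY e x) - s (YY e z)‖ ≤ ww e x * (|L| * ‖YY e x - YY e z‖) :=
            mul_le_mul_of_nonneg_left h3 h.le
        _ = |L| * (ww e x * ‖YY e x - YY e z‖) := by ring
        _ ≤ _ := mul_le_mul_of_nonneg_left (YY_lip e x z he h h') (abs_nonneg _)
    nlinarith [h2, h4]

/-! ## MAPB -/

/-- The radial part of `nn`. -/
noncomputable def mm (y : E) : E := (min 1 ((2 - ‖y‖) / ‖y‖)) • y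

lemma mm_of_le (y : E) (hy : ‖y‖ ≤ 1) : mm y = y := by
  unfold mm
  rcases (norm_nonneg y).eq_or_lt with h | h
  · rw [norm_eq_zero.mp h.symm]; simp
  · rw [min_eq_left, one_smul]
    rw [le_div_iff₀ h]; linarith

lemma mm_of_ge (y : E) (hy : 1 ≤ ‖y‖) : mm y = (2 * ‖y‖⁻¹) • y - y := by
  have h : 0 < ‖y‖ := by linarith
  unfold mm
  rw [min_eq_right]
  · rw [sub_div, div_self h.ne', sub_smul, one_smul, div_eq_mul_inv]
  · rw [div_le_one h]; linarith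

lemma norm_mm (y : E) (h2 : ‖y‖ ≤ 2) : ‖mm y‖ = min ‖y‖ (2 - ‖y‖) := by
  unfold mm
  rcases (norm_nonneg y).eq_or_lt with h | h
  · rw [← h, norm_smul, ← h]; simp
  · have h0 : 0 ≤ min 1 ((2 - ‖y‖) / ‖y‖) :=
      le_min zero_le_one (div_nonneg (by linarith) h.le)
    rw [norm_smul, Real.norm_eq_abs, abs_of_nonneg h0, min_mul_of_nonneg _ _ h.le, one_mul,
      div_mul_cancel₀ _ h.ne']

/-- Normalisation is Lipschitz away from zero. -/
lemma unit_lip (u v : E) (hu : 0 < ‖u‖) (hv : 0 < ‖v‖) :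
    ‖u‖ * ‖(‖u‖)⁻¹ • u - (‖v‖)⁻¹ • v‖ ≤ 2 * ‖u - v‖ := by
  have h1 : ‖u‖ • ((‖u‖)⁻¹ • u - (‖v‖)⁻¹ • v) = (u - v) + ((‖v‖ - ‖u‖) * (‖v‖)⁻¹) • v := by
    rw [smul_sub, smul_smul, smul_smul, mul_inv_cancel₀ hu.ne', one_smul, sub_mul,
      mul_inv_cancel₀ hv.ne', sub_smul, one_smul]
    abel
  have h2 : ‖u‖ * ‖(‖u‖)⁻¹ • u - (‖v‖)⁻¹ • v‖ = ‖‖u‖ • ((‖u‖)⁻¹ • u - (‖v‖)⁻¹ • v)‖ := by
    rw [norm_smul, Real.norm_eq_abs, abs_of_pos hu]
  rw [h2, h1]
  refine (norm_add_le _ _).trans ?_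
  have h3 : ‖((‖v‖ - ‖u‖) * (‖v‖)⁻¹) • v‖ ≤ ‖u - v‖ := by
    rw [norm_smul, norm_mul, Real.norm_eq_abs, norm_inv, norm_norm, mul_assoc,
      inv_mul_cancel₀ hv.ne', mul_one, norm_sub_rev u v]
    exact abs_norm_sub_norm_le _ _
  linarith

lemma mm_lip_ge (y z : E) (hy : 1 ≤ ‖y‖) (hz : 1 ≤ ‖z‖) :
    ‖mm y - mm z‖ ≤ 5 * ‖y - z‖ := by
  have h1 : mm y - mm z = (2 : ℝ) • ((‖y‖)⁻¹ • y - (‖z‖)⁻¹ • z) - (y - z) := by
    rw [mm_of_ge y hy, mm_of_ge z hz, smul_sub, smul_smul, smul_smul]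
    abel
  rw [h1]
  refine (norm_sub_le _ _).trans ?_
  rw [norm_smul, Real.norm_eq_abs, abs_of_pos (by norm_num : (0 : ℝ) < 2)]
  have h2 := unit_lip y z (by linarith) (by linarith)
  have h3 : ‖(‖y‖)⁻¹ • y - (‖z‖)⁻¹ • z‖ ≤ ‖y‖ * ‖(‖y‖)⁻¹ • y - (‖z‖)⁻¹ • z‖ :=
    le_mul_of_one_le_left (norm_nonneg _) hy
  linarith

lemma mm_lip_mix (y z : E) (hy : ‖y‖ ≤ 1) (hz : 1 ≤ ‖z‖) :
    ‖mm y - mm z‖ ≤ 5 * ‖y - z‖ := by
  have hz0 : 0 < ‖z‖ := by linarith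
  have h1 : mm y - mm z = (y - z) + (2 * (1 - ‖z‖⁻¹)) • z := by
    rw [mm_of_le y hy, mm_of_ge z hz, mul_sub, mul_one, sub_smul, two_smul]
    abel
  rw [h1]
  refine (norm_add_le _ _).trans ?_
  have h2 : ‖(2 * (1 - ‖z‖⁻¹)) • z‖ = 2 * (‖z‖ - 1) := by
    have h3 : 0 ≤ 2 * (1 - ‖z‖⁻¹) := by
      have : ‖z‖⁻¹ ≤ 1 := inv_le_one_of_one_le₀ hz
      linarith
    rw [norm_smul, Real.norm_eq_abs, abs_of_nonneg h3, mul_assoc, sub_mul, one_mul,
      inv_mul_cancel₀ hz0.ne']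
  have h4 : ‖z‖ - ‖y‖ ≤ ‖y - z‖ := by
    rw [norm_sub_rev]; exact norm_sub_norm_le _ _
  have h5 := norm_nonneg (y - z)
  rw [h2]
  linarith

lemma mm_lip (y z : E) : ‖mm y - mm z‖ ≤ 5 * ‖y - z‖ := by
  have h5 := norm_nonneg (y - z)
  rcases le_total ‖y‖ 1 with hy | hy <;> rcases le_total ‖z‖ 1 with hz | hz
  · rw [mm_of_le y hy, mm_of_le z hz]; linarith
  · exact mm_lip_mix y z hy hz
  · rw [norm_sub_rev, norm_sub_rev y z]; exact mm_lip_mix z y hz hy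
  · exact mm_lip_ge y z hy hz

lemma nn_lip (e y z : E) (he : ‖e‖ = 1) : ‖nn e y - nn e z‖ ≤ 6 * ‖y - z‖ := by
  have h1 : nn e y - nn e z = (‖z‖ - ‖y‖) • e + (mm y - mm z) := by
    unfold nn mm
    rw [sub_smul, sub_smul, sub_smul]
    abel
  rw [h1]
  refine (norm_add_le _ _).trans ?_
  rw [norm_smul, he, mul_one, Real.norm_eq_abs]
  have h2 := mm_lip y z
  have h3 : |‖z‖ - ‖y‖| ≤ ‖y - z‖ := by
    rw [norm_sub_rev]; exact abs_norm_sub_norm_le _ _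
  linarith

lemma nn_norm (e y : E) (he : ‖e‖ = 1) (hy : y ∈ DD e) : 1 / 2 ≤ ‖nn e y‖ := by
  obtain ⟨h2, h0⟩ := hy
  have h1 : ‖nn e y‖ ^ 2 = (1 - ‖y‖) ^ 2 + (min ‖y‖ (2 - ‖y‖)) ^ 2 := by
    have h3 : nn e y = (1 - ‖y‖) • e + mm y := rfl
    have h4 : inner ℝ e (mm y) = 0 := by
      unfold mm
      rw [inner_smul_right]
      have : inner ℝ e y = 0 := h0
      rw [this, mul_zero]
    rw [h3, norm_add_sq_real, inner_smul_left, h4, norm_smul, he, mul_one, Real.norm_eq_abs,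
      sq_abs, norm_mm y h2]
    simp
  have h5 : (1 / 2 : ℝ) ^ 2 ≤ ‖nn e y‖ ^ 2 := by
    rw [h1]
    rcases le_total ‖y‖ (2 - ‖y‖) with h | h
    · rw [min_eq_left h]
      nlinarith [sq_nonneg (2 * ‖y‖ - 1)]
    · rw [min_eq_right h]
      nlinarith [sq_nonneg (2 * ‖y‖ - 3)]
  exact le_of_sq_le_sq h5 (norm_nonneg _)

theorem mapb : MAPBStmt := by
  intro E _ _ e he
  refine ⟨?_, ?_, ⟨24, ?_⟩⟩
  · intro y hy t ht0 ht1
    constructor
    · rw [norm_smul, Real.norm_eq_abs, abs_of_nonneg ht0]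
      have := hy.1
      nlinarith [norm_nonneg y]
    · have : inner ℝ e y = 0 := hy.2
      unfold x0
      rw [inner_smul_right, this, mul_zero]
  · intro y hy
    have h := nn_norm e y he hy
    unfold nu
    rw [norm_smul, norm_inv, norm_norm, inv_mul_cancel₀ (by linarith)]
  · intro y hy z hz
    have h1 := nn_norm e y he hy
    have h2 := nn_norm e z he hz
    have h3 := unit_lip (nn e y) (nn e z) (by linarith) (by linarith)
    have h4 := nn_lip e y z he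
    have h5 : (1 / 2) * ‖nu e y - nu e z‖ ≤ ‖nn e y‖ * ‖nu e y - nu e z‖ :=
      mul_le_mul_of_nonneg_right h1 (norm_nonneg _)
    have h6 : ‖nn e y‖ * ‖nu e y - nu e z‖ ≤ 2 * ‖nn e y - nn e z‖ := h3
    linarith

end Pool.Agent.BAN.H20
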